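import Pool.Agent.R719.TC.Dom

/-!
# Classes of dominating polynomials: Gram determinants, dominated matrices, definite forms
-/

set_option autoImplicit false

open MeasureTheory Filter MvPolynomial Matrix

namespace Pool.Agent.R719.TC

open Pool.Agent.H261R2.CM Pool.Agent.TH845.KN Pool.Agent.R719.WD Pool.Agent.R719.LG

noncomputable section

variable {k r : ℕ}

/-! ### Gram determinants -/

theorem gram_eq {n N : ℕ} (W : Matrix (Fin n) (Fin N) ℂ) :
    (n.factorial : ℝ) * ‖(W * Wᴴ).det‖ = ∑ I : Fin n → Fin N, ‖(W.submatrix id I).det‖ ^ 2 := by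
  have h1 := Pool.Agent.TH650.GB.cb W Wᴴ
  rw [Fintype.card_fin] at h1
  have h2 : ∀ I : Fin n → Fin N, (W.submatrix id I).det * (Wᴴ.submatrix I id).det =
      ((‖(W.submatrix id I).det‖ ^ 2 : ℝ) : ℂ) := by
    intro I
    have h3 : Wᴴ.submatrix I id = (W.submatrix id I)ᴴ := by
      rw [Matrix.conjTranspose_submatrix]
    rw [h3, Matrix.det_conjTranspose, Complex.star_def, Complex.mul_conj, Complex.normSq_eq_norm_sq]
  rw [Finset.sum_congr rfl fun I _ => h2 I, ← Complex.ofReal_sum] at h1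
  have h4 := congrArg norm h1
  rw [norm_mul, Complex.norm_natCast, Complex.norm_real, Real.norm_eq_abs,
    abs_of_nonneg (Finset.sum_nonneg fun I _ => sq_nonneg _)] at h4
  exact h4

theorem strictMono_perm {n N : ℕ} {I J : Fin n → Fin N} (hI : StrictMono I) (hJ : StrictMono J)
    {σ τ : Equiv.Perm (Fin n)} (h : I ∘ σ = J ∘ τ) : I = J ∧ σ = τ := by
  have h1 : Set.range I = Set.range J := by
    have h2 := congrArg Set.range h
    rwa [σ.surjective.range_comp, τ.surjective.range_comp] at h2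
  have h3 : I = J := hI.range_inj hJ |>.1 h1
  refine ⟨h3, ?_⟩
  subst h3
  ext i
  have := hI.injective (congrFun h i)
  rw [this]

theorem gram_le {n N : ℕ} (W : Matrix (Fin n) (Fin N) ℂ) (S : Finset (Fin n → Fin N))
    (hS : ∀ I ∈ S, StrictMono I) :
    ∑ I ∈ S, ‖(W.submatrix id I).det‖ ^ 2 ≤ ‖(W * Wᴴ).det‖ := by
  classical
  have hn : (0 : ℝ) < n.factorial := by exact_mod_cast n.factorial_pos
  refine le_of_mul_le_mul_left ?_ hn
  rw [gram_eq]
  have h1 : (n.factorial : ℝ) * ∑ I ∈ S, ‖(W.submatrix id I).det‖ ^ 2 =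
      ∑ q ∈ S ×ˢ (Finset.univ : Finset (Equiv.Perm (Fin n))),
        ‖(W.submatrix id (q.1 ∘ q.2)).det‖ ^ 2 := by
    rw [Finset.sum_product, Finset.mul_sum]
    refine Finset.sum_congr rfl fun I _ => ?_
    have h2 : ∀ σ : Equiv.Perm (Fin n), ‖(W.submatrix id (I ∘ σ)).det‖ ^ 2 =
        ‖(W.submatrix id I).det‖ ^ 2 := by
      intro σ
      have h3 : W.submatrix id (I ∘ σ) = (W.submatrix id I).submatrix id σ := rfl
      rw [h3, Matrix.det_permute', norm_mul]
      have h4 : ‖((Equiv.Perm.sign σ : ℤ) : ℂ)‖ = 1 := by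
        rcases Int.units_eq_one_or (Equiv.Perm.sign σ) with h | h <;> simp [h]
      rw [h4, one_mul]
    simp only [h2, Finset.sum_const, Finset.card_univ, Fintype.card_perm, Fintype.card_fin,
      nsmul_eq_mul]
  rw [h1]
  have hinj : Set.InjOn (fun q : (Fin n → Fin N) × Equiv.Perm (Fin n) => q.1 ∘ q.2)
      (S ×ˢ (Finset.univ : Finset (Equiv.Perm (Fin n))) : Finset _) := by
    rintro ⟨I, σ⟩ hI ⟨J, τ⟩ hJ h
    simp only [Finset.coe_product, Finset.coe_univ, Set.mem_prod, Finset.mem_coe, Set.mem_univ,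
      and_true] at hI hJ
    obtain ⟨h1, h2⟩ := strictMono_perm (hS I hI) (hS J hJ) h
    exact Prod.ext h1 h2
  rw [← Finset.sum_image (f := fun I : Fin n → Fin N => ‖(W.submatrix id I).det‖ ^ 2) hinj]
  exact Finset.sum_le_sum_of_subset_of_nonneg (Finset.subset_univ _) fun _ _ _ => sq_nonneg _

/-- value of a matrix at a torus point -/
def tvM {n N : ℕ} (W : Matrix (Fin n) (Fin N) (MvPolynomial (Fin k) ℤ)) (t : Fin k → ℝ) :
    Matrix (Fin n) (Fin N) ℂ := W.map fun P => tv P t

theorem tv_det {n : ℕ} (A : Matrix (Fin n) (Fin n) (MvPolynomial (Fin k) ℤ)) (t : Fin k → ℝ) :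
    tv A.det t = (tvM A t).det := by
  rw [J.tv_eq, RingHom.map_det]
  rfl

theorem Dom_gram (hk : 1 ≤ k) {F : MvPolynomial (Fin k) ℤ} (hF : F ≠ 0) {n N : ℕ}
    (W : Matrix (Fin n) (Fin N) (MvPolynomial (Fin k) ℤ))
    (hW : ∀ h : MvPolynomial (Fin k) ℤ, Irreducible h →
      (∀ I : Fin n → Fin N, StrictMono I → h ∣ (W.submatrix id I).det) → mM h = 1)
    (h : ∀ t : Fin k → ℝ, ‖(tvM W t * (tvM W t)ᴴ).det‖ = ‖tv F t‖) :
    mM F ∈ Dom 1 := by
  classical
  set S : Finset (Fin n → Fin N) := Finset.univ.filter StrictMono with hS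
  have hS' : ∀ I ∈ S, StrictMono I := fun I hI => (Finset.mem_filter.1 hI).2
  refine Dom_pow (ι := S) hk hF (fun I => (W.submatrix id I.1).det) ?_ 2 ?_
  · intro q hq hall
    refine hW q hq fun I hI => hall ⟨I, Finset.mem_filter.2 ⟨Finset.mem_univ _, hI⟩⟩
  · intro t
    rw [one_mul, ← h t]
    refine le_trans (le_of_eq ?_) (gram_le (tvM W t) S hS')
    rw [← Finset.sum_coe_sort S]
    refine Finset.sum_congr rfl fun I _ => ?_
    rw [tv_det]
    rfl

theorem card_gram {F : MvPolynomial (Fin k) ℤ} (hF : F ≠ 0) {n N : ℕ}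
    (W : Matrix (Fin n) (Fin N) (MvPolynomial (Fin k) ℤ))
    (h : ∀ t : Fin k → ℝ, ‖(tvM W t * (tvM W t)ᴴ).det‖ = ‖tv F t‖) :
    (Nat.card {I : Fin n → Fin N // StrictMono I ∧ (W.submatrix id I).det ≠ 0} : ℝ) ≤ mM F := by
  classical
  set S : Finset (Fin n → Fin N) :=
    Finset.univ.filter fun I => StrictMono I ∧ (W.submatrix id I).det ≠ 0 with hS
  have hS' : ∀ I ∈ S, StrictMono I := fun I hI => (Finset.mem_filter.1 hI).2.1
  have h1 := amgm (ι := S) hF (fun I => (W.submatrix id I.1).det ^ 2)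
    (fun I => pow_ne_zero _ (Finset.mem_filter.1 I.2).2.2) (c := 1) one_pos (by
      intro t
      rw [one_mul, ← h t]
      refine le_trans (le_of_eq ?_) (gram_le (tvM W t) S hS')
      rw [← Finset.sum_coe_sort S]
      refine Finset.sum_congr rfl fun I _ => ?_
      rw [J.tv_eq, map_pow, norm_pow, ← J.tv_eq, tv_det]
      rfl)
  rw [one_mul] at h1
  refine le_trans (le_of_eq ?_) h1
  rw [Nat.card_eq_fintype_card, Fintype.card_coe, Fintype.card_subtype]

/-! ### dominated matrices -/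

/-- the length -/
def len (P : MvPolynomial (Fin k) ℤ) : ℤ := ∑ s ∈ P.support, |P.coeff s|

theorem norm_ge (P : MvPolynomial (Fin k) ℤ) (s : Fin k →₀ ℕ) (t : Fin k → ℝ) :
    2 * |((P.coeff s : ℤ) : ℝ)| - len P ≤ ‖tv P t‖ := by
  classical
  by_cases hs : s ∈ P.support
  · have h1 : tv P t = ∑ s ∈ P.support, tv (monomial s (P.coeff s)) t := by
      conv_lhs => rw [P.as_sum]
      rw [J.tv_eq, map_sum]
      rfl
    have h2 : ∀ s, ‖tv (monomial s (P.coeff s)) t‖ = |((P.coeff s : ℤ) : ℝ)| := by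
      intro s
      rw [J.tv_monomial, norm_mul, norm_prod]
      simp only [norm_pow, J.norm_zz, one_pow, Finset.prod_const_one, mul_one]
      rw [Complex.norm_intCast]
    rw [h1, ← Finset.add_sum_erase _ _ hs]
    have h3 : ‖∑ s ∈ P.support.erase s, tv (monomial s (P.coeff s)) t‖ ≤
        ∑ s ∈ P.support.erase s, |((P.coeff s : ℤ) : ℝ)| :=
      (norm_sum_le _ _).trans (le_of_eq (Finset.sum_congr rfl fun i _ => h2 i))
    have h4 : (len P : ℝ) = |((P.coeff s : ℤ) : ℝ)| + ∑ s ∈ P.support.erase s, |((P.coeff s : ℤ) : ℝ)| := by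
      unfold len
      rw [Finset.add_sum_erase _ (fun s => |((P.coeff s : ℤ) : ℝ)|) hs]
      push_cast
      rfl
    have h5 := norm_sub_norm_le (tv (monomial s (P.coeff s)) t)
      (-∑ s ∈ P.support.erase s, tv (monomial s (P.coeff s)) t)
    rw [norm_neg, sub_neg_eq_add, h2] at h5
    linarith
  · rw [notMem_support_iff.1 hs]
    have h1 : (0 : ℝ) ≤ len P := by
      unfold len
      exact_mod_cast Finset.sum_nonneg fun _ _ => abs_nonneg _
    have := norm_nonneg (tv P t)
    simp only [Int.cast_zero, abs_zero, mul_zero, zero_sub]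
    linarith

/-- strict weighted dominance up to monomials -/
theorem one_le_det {n : ℕ} (A : Matrix (Fin n) (Fin n) (MvPolynomial (Fin k) ℤ))
    (σ : Equiv.Perm (Fin n)) (s : Fin n → Fin k →₀ ℕ) (p : Fin n → ℝ) (hp : ∀ i, 0 < p i)
    (h : ∀ i, ∑ j, (len (A i j) : ℝ) * p j < 2 * |(((A i (σ i)).coeff (s i) : ℤ) : ℝ)| * p (σ i))
    (t : Fin k → ℝ) : 1 ≤ ‖tv A.det t‖ := by
  classical
  set MZ : Matrix (Fin n) (Fin n) ℤ := Matrix.of fun i j =>
    (if i = j then 2 * |(A i (σ i)).coeff (s i)| else 0) - len (A i (σ j)) with hMZ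
  set M : Matrix (Fin n) (Fin n) ℝ := MZ.map (Int.castRingHom ℝ) with hM
  set X : Matrix (Fin n) (Fin n) ℂ := (tvM A t).submatrix id σ with hX
  have hMap : ∀ i j, M i j = (if i = j then 2 * |(((A i (σ i)).coeff (s i) : ℤ) : ℝ)| else 0) -
      len (A i (σ j)) := by
    intro i j
    rw [hM, hMZ]
    simp only [Matrix.map_apply, Matrix.of_apply, eq_intCast]
    split_ifs <;> push_cast <;> ring
  have hlen : ∀ P : MvPolynomial (Fin k) ℤ, (0 : ℝ) ≤ len P := fun P => by
    unfold len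
    exact_mod_cast Finset.sum_nonneg fun _ _ => abs_nonneg _
  have hrow : ∀ i, 0 < ∑ j, M i j * p (σ j) := by
    intro i
    simp only [hMap, sub_mul, Finset.sum_sub_distrib, ite_mul, zero_mul, Finset.sum_ite_eq,
      Finset.mem_univ, if_true]
    have h1 := Equiv.sum_comp σ fun j => (len (A i j) : ℝ) * p j
    rw [h1]
    have := h i
    linarith
  have hG : Good M (fun j => p (σ j)) := by
    refine ⟨fun i => hp _, fun i j hij => ?_, fun i => (hrow i).le⟩
    rw [hMap, if_neg hij, zero_sub]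
    have := hlen (A i (σ j))
    linarith
  have hC : CmpC M X := by
    refine ⟨fun i => ?_, fun i j hij => ?_⟩
    · rw [hMap, if_pos rfl]
      exact norm_ge _ _ _
    · rw [hMap, if_neg hij, zero_sub, neg_neg]
      exact norm_tv_le _ _
  have h1 := ostC hG hC
  have h2 : ‖X.det‖ = ‖tv A.det t‖ := by
    rw [hX, Matrix.det_permute', norm_mul, tv_det]
    have h4 : ‖((Equiv.Perm.sign σ : ℤ) : ℂ)‖ = 1 := by
      rcases Int.units_eq_one_or (Equiv.Perm.sign σ) with h | h <;> simp [h]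
    rw [h4, one_mul]
  rw [h2] at h1
  refine le_trans ?_ h1
  have h3 : M.det = ((MZ.det : ℤ) : ℝ) := by
    rw [hM, ← RingHom.mapMatrix_apply, ← RingHom.map_det]
    rfl
  have h4 : M.det ≠ 0 := by
    intro h0
    have h5 : (M * Matrix.diagonal fun j => p (σ j)).det ≠ 0 := by
      apply det_ne_zero_of_sum_row_lt_diag
      intro i
      simp only [Matrix.mul_diagonal]
      have h6 : ∀ j ∈ Finset.univ.erase i, ‖M i j * p (σ j)‖ = -(M i j * p (σ j)) := by
        intro j hj
        have hij : i ≠ j := (Finset.ne_of_mem_erase hj).symm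
        rw [Real.norm_eq_abs, abs_of_nonpos]
        exact mul_nonpos_of_nonpos_of_nonneg (hG.off i j hij) (hp _).le
      rw [Finset.sum_congr rfl h6, Finset.sum_neg_distrib]
      have h7 := hrow i
      rw [← Finset.add_sum_erase _ _ (Finset.mem_univ i)] at h7
      have h8 := le_abs_self (M i i * p (σ i))
      rw [Real.norm_eq_abs]
      linarith
    exact h5 (by rw [Matrix.det_mul, h0, zero_mul])
  have h5 : 0 < M.det := lt_of_le_of_ne hG.det_nonneg (Ne.symm h4)
  rw [h3] at h5 ⊢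
  have h6 : 0 < MZ.det := by exact_mod_cast h5
  exact_mod_cast h6

theorem Dom_matrix (hk : 1 ≤ k) {n : ℕ} (A : Matrix (Fin n) (Fin n) (MvPolynomial (Fin k) ℤ))
    (σ : Equiv.Perm (Fin n)) (s : Fin n → Fin k →₀ ℕ) (p : Fin n → ℝ) (hp : ∀ i, 0 < p i)
    (h : ∀ i, ∑ j, (len (A i j) : ℝ) * p j < 2 * |(((A i (σ i)).coeff (s i) : ℤ) : ℝ)| * p (σ i)) :
    A.det ≠ 0 ∧ mM A.det ∈ Dom 1 := by
  have h1 := one_le_det A σ s p hp h
  have h0 : A.det ≠ 0 := by
    intro h0
    have := h1 0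
    rw [h0] at this
    simp only [tv, map_zero, norm_zero] at this
    linarith
  refine ⟨h0, Dom_of (ι := Unit) hk h0 (fun _ => 1) ?_ ?_⟩
  · intro q hq hall
    exact absurd (isUnit_of_dvd_one (hall ())) hq.not_isUnit
  · intro t
    simpa [J.tv_one] using h1 t

/-! ### definite forms -/

/-- the value of a form with integer coefficients at a complex vector -/
def fev {R : Type} [CommRing R] (P : MvPolynomial (Fin r) ℤ) (y : Fin r → R) : R :=
  eval₂ (Int.castRingHom R) y P

theorem fev_map {R S : Type} [CommRing R] [CommRing S] (f : R →+* S) (P : MvPolynomial (Fin r) ℤ)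
    (y : Fin r → R) : fev P (fun i => f (y i)) = f (fev P y) := by
  unfold fev
  rw [MvPolynomial.eval₂_comp_left f]
  congr 1
  exact Subsingleton.elim _ _

theorem fev_smul {R : Type} [CommRing R] {P : MvPolynomial (Fin r) ℤ} {m : ℕ}
    (hP : P.IsHomogeneous m) (a : R) (y : Fin r → R) :
    fev P (fun i => a * y i) = a ^ m * fev P y := by
  unfold fev
  rw [MvPolynomial.eval₂_eq', MvPolynomial.eval₂_eq', Finset.mul_sum]
  refine Finset.sum_congr rfl fun s hs => ?_
  have h1 : ∑ i, s i = m := by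
    have h2 := hP (mem_support_iff.1 hs)
    rw [Finsupp.weight_apply, Finsupp.sum_fintype _ _ (by simp)] at h2
    simpa using h2
  simp only [mul_pow]
  rw [Finset.prod_mul_distrib, Finset.prod_pow_eq_pow_sum, h1]
  ring

theorem form_bound (P : MvPolynomial (Fin r) ℤ) (m : ℕ) (hP : P.IsHomogeneous m)
    (hdef : ∀ y : Fin r → ℝ, fev P y = 0 → y = 0) :
    ∃ c : ℝ, 0 < c ∧ ∀ y : Fin r → ℝ, ∑ i, |y i| ^ m ≤ c * |fev P y| := by
  classical
  have hcont : Continuous fun y : Fin r → ℝ => fev P y := by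
    unfold fev
    simp only [MvPolynomial.eval₂_eq']
    fun_prop
  rcases Nat.eq_zero_or_pos r with hr | hr
  · subst hr
    refine ⟨1, one_pos, fun y => ?_⟩
    simp
  have : Nonempty (Fin r) := ⟨⟨0, hr⟩⟩
  have hcomp : IsCompact (Metric.sphere (0 : Fin r → ℝ) 1) := isCompact_sphere _ _
  have hne : (Metric.sphere (0 : Fin r → ℝ) 1).Nonempty := by
    refine ⟨fun _ => 1, ?_⟩
    rw [mem_sphere_zero_iff_norm]
    exact (pi_norm_const (1 : ℝ)).trans (by simp)
  obtain ⟨y0, hy0, hmin⟩ := hcomp.exists_isMinOn hne hcont.abs.continuousOn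
  have hδ : 0 < |fev P y0| := by
    rw [abs_pos]
    intro h
    have h1 := hdef y0 h
    rw [mem_sphere_zero_iff_norm, h1, norm_zero] at hy0
    exact zero_ne_one hy0
  refine ⟨r / |fev P y0|, by positivity, fun y => ?_⟩
  by_cases hy : y = 0
  · subst hy
    rcases Nat.eq_zero_or_pos m with hm | hm
    · subst hm
      have h1 : fev P (0 : Fin r → ℝ) = fev P y0 := by
        have h2 := fev_smul hP (0 : ℝ) y0
        have h3 : (0 : Fin r → ℝ) = fun i => (0 : ℝ) * y0 i := by
          funext i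
          simp
        rw [h3, h2]
        simp
      rw [h1]
      simp only [pow_zero, Finset.sum_const, Finset.card_univ, Fintype.card_fin, nsmul_eq_mul,
        mul_one]
      rw [div_mul_cancel₀ _ hδ.ne']
    · simp only [Pi.zero_apply, abs_zero, zero_pow hm.ne', Finset.sum_const_zero]
      positivity
  · have hn : 0 < ‖y‖ := norm_pos_iff.2 hy
    have h1 : (fun i => ‖y‖⁻¹ * y i) ∈ Metric.sphere (0 : Fin r → ℝ) 1 := by
      rw [mem_sphere_zero_iff_norm]
      have : (fun i => ‖y‖⁻¹ * y i) = ‖y‖⁻¹ • y := rfl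
      rw [this, norm_smul, norm_inv, norm_norm, inv_mul_cancel₀ hn.ne']
    have h2 : |fev P y0| ≤ |fev P fun i => ‖y‖⁻¹ * y i| := hmin h1
    rw [fev_smul hP, abs_mul, abs_pow, abs_inv, abs_norm, inv_pow,
      inv_mul_eq_div, le_div_iff₀ (by positivity)] at h2
    have h3 : ∑ i, |y i| ^ m ≤ r * ‖y‖ ^ m := by
      have h4 : ∀ i ∈ (Finset.univ : Finset (Fin r)), |y i| ^ m ≤ ‖y‖ ^ m := fun i _ =>
        pow_le_pow_left₀ (abs_nonneg _) (norm_le_pi_norm y i) m
      refine (Finset.sum_le_sum h4).trans (le_of_eq ?_)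
      rw [Finset.sum_const, Finset.card_univ, Fintype.card_fin, nsmul_eq_mul]
    refine h3.trans ?_
    rw [div_mul_eq_mul_div, le_div_iff₀ hδ, mul_assoc]
    refine mul_le_mul_of_nonneg_left ?_ (Nat.cast_nonneg _)
    rw [mul_comm]
    exact h2

/-- the values of `g` at each torus point are real up to a common factor -/
def RealRatios (g : Fin r → MvPolynomial (Fin k) ℤ) : Prop :=
  ∀ (t : Fin k → ℝ) (i j : Fin r), (tv (g i) t * star (tv (g j) t)).im = 0

theorem form_lower {P : MvPolynomial (Fin r) ℤ} {m : ℕ} (hP : P.IsHomogeneous m) {c : ℝ}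
    (hc : ∀ y : Fin r → ℝ, ∑ i, |y i| ^ m ≤ c * |fev P y|) (z : Fin r → ℂ)
    (hz : ∀ i j, (z i * star (z j)).im = 0) : ∑ i, ‖z i‖ ^ m ≤ c * ‖fev P z‖ := by
  classical
  by_cases h0 : ∀ i, z i = 0
  · have h1 : z = fun i => Complex.ofRealHom ((0 : Fin r → ℝ) i) := by
      funext i
      simp [h0 i]
    have h2 := hc 0
    rw [h1, fev_map]
    simpa using h2
  · push Not at h0
    obtain ⟨j, hj⟩ := h0
    have hn : 0 < ‖z j‖ := norm_pos_iff.2 hj
    set w : ℂ := z j / ‖z j‖ with hw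
    have hw1 : ‖w‖ = 1 := by
      rw [hw, norm_div, Complex.norm_real, norm_norm, div_self hn.ne']
    set y : Fin r → ℝ := fun i => (z i * star (z j)).re / ‖z j‖ with hy
    have hzy : ∀ i, z i = w * Complex.ofRealHom (y i) := by
      intro i
      have h1 : (z i * star (z j)) = (((z i * star (z j)).re : ℝ) : ℂ) := by
        apply Complex.ext
        · simp
        · rw [hz i j, Complex.ofReal_im]
      have h2 : Complex.ofRealHom (y i) = z i * star (z j) / ‖z j‖ := by
        rw [hy, Complex.ofRealHom_eq_coe, Complex.ofReal_div, ← h1]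
      have hjc : (‖z j‖ : ℂ) ≠ 0 := by exact_mod_cast hn.ne'
      rw [h2, hw]
      have h3 : z j * star (z j) = (‖z j‖ : ℂ) ^ 2 := by
        rw [Complex.star_def, Complex.mul_conj, Complex.normSq_eq_norm_sq]
        push_cast
        rfl
      field_simp
      rw [mul_assoc, h3]
    have h4 : fev P z = w ^ m * Complex.ofRealHom (fev P y) := by
      rw [← fev_map, ← fev_smul hP]
      congr 1
      funext i
      exact hzy i
    have h5 : ∀ i, ‖z i‖ = |y i| := by
      intro i
      rw [hzy i, norm_mul, hw1, one_mul, Complex.ofRealHom_eq_coe, Complex.norm_real,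
        Real.norm_eq_abs]
    rw [h4, norm_mul, norm_pow, hw1, one_pow, one_mul, Complex.ofRealHom_eq_coe,
      Complex.norm_real, Real.norm_eq_abs]
    simp only [h5]
    exact hc y

theorem tv_form (P : MvPolynomial (Fin r) ℤ) (g : Fin r → MvPolynomial (Fin k) ℤ)
    (t : Fin k → ℝ) : tv (bind₁ g P) t = fev P fun i => tv (g i) t := by
  rw [J.tv_eq]
  unfold bind₁ fev
  rw [aeval_def, MvPolynomial.eval₂_comp_left (J.tvh t)]
  congr 1
  exact Subsingleton.elim _ _

theorem NCF.exists_ne {ι : Type} {g : ι → MvPolynomial (Fin k) ℤ} (h : NCF g) :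
    ∃ i, g i ≠ 0 := by
  by_contra hcon
  push Not at hcon
  have h2 : Irreducible (C 2 : MvPolynomial (Fin k) ℤ) := by
    have : Prime (C 2 : MvPolynomial (Fin k) ℤ) := by
      rw [MvPolynomial.prime_C_iff]
      exact Int.prime_two
    exact this.irreducible
  have h3 := h _ h2 fun i => by rw [hcon i]; exact dvd_zero _
  unfold mM at h3
  simp only [J.tv_C] at h3
  rw [integral_const] at h3
  simp [measureReal_def] at h3
  norm_num at h3

theorem Dom_form (P : MvPolynomial (Fin r) ℤ) (m : ℕ) (hP : P.IsHomogeneous m)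
    (hdef : ∀ y : Fin r → ℝ, fev P y = 0 → y = 0) :
    ∃ c : ℝ, ∀ (k : ℕ) (g : Fin r → MvPolynomial (Fin k) ℤ), 1 ≤ k → NCF g → RealRatios g →
      bind₁ g P ≠ 0 ∧ mM (bind₁ g P) ∈ Dom c := by
  obtain ⟨c, hc0, hc⟩ := form_bound P m hP hdef
  refine ⟨c, fun k g hk hg hr => ?_⟩
  have h1 : ∀ t : Fin k → ℝ, ∑ i, ‖tv (g i) t‖ ^ m ≤ c * ‖tv (bind₁ g P) t‖ := by
    intro t
    rw [tv_form]
    exact form_lower hP hc _ (hr t)
  have h0 : bind₁ g P ≠ 0 := by
    intro h0
    obtain ⟨i, hi⟩ := hg.exists_ne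
    have h2 : ∀ t : Fin k → ℝ, tv (g i ^ m) t = 0 := by
      intro t
      have h3 := h1 t
      rw [h0] at h3
      have h4 : tv (0 : MvPolynomial (Fin k) ℤ) t = 0 := by rw [J.tv_eq, map_zero]
      rw [h4, norm_zero, mul_zero] at h3
      have h5 := (Finset.single_le_sum (f := fun i => ‖tv (g i) t‖ ^ m)
        (fun i _ => by positivity) (Finset.mem_univ i)).trans h3
      have h6 : ‖tv (g i) t‖ ^ m = 0 := le_antisymm h5 (by positivity)
      rw [J.tv_eq, map_pow, ← norm_eq_zero, norm_pow]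
      exact h6
    have h7 := F_zero_null (pow_ne_zero m hi)
    have h8 : ∀ᵐ t ∂((volume : Measure (Fin k → ℝ)).restrict (Set.Icc (0 : Fin k → ℝ) 1)),
        False := by
      filter_upwards [h7] with t ht
      exact ht (h2 t)
    rw [ae_iff] at h8
    simp at h8
  exact ⟨h0, Dom_pow hk h0 g hg m h1⟩

end

end Pool.Agent.R719.TC
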