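import Pool.Agent.R719.TC.Inst

/-!
# Incidence matrices of periodic graphs: their minors have Mahler measure one
-/

set_option autoImplicit false

open MeasureTheory Filter MvPolynomial Matrix

namespace Pool.Agent.R719.TC

open Pool.Agent.H261R2.CM Pool.Agent.TH845.KN Pool.Agent.R719.WD Pool.Agent.R719.LG

noncomputable section

variable {k : ℕ}

theorem mM_neg (P : MvPolynomial (Fin k) ℤ) : mM (-P) = mM P := by
  unfold mM
  congr 1
  refine integral_congr_ae (Eventually.of_forall fun t => ?_)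
  simp only [J.tv_eq, map_neg, norm_neg]

theorem mM_one : mM (1 : MvPolynomial (Fin k) ℤ) = 1 := by
  unfold mM
  simp [J.tv_one]

theorem mM_monomial (a : Fin k →₀ ℕ) : mM (monomial a (1 : ℤ)) = 1 := by
  unfold mM
  have : ∀ t : Fin k → ℝ, ‖tv (monomial a (1 : ℤ)) t‖ = 1 := by
    intro t
    rw [J.tv_monomial, norm_mul, norm_prod]
    simp only [norm_pow, J.norm_zz, one_pow, Finset.prod_const_one, mul_one]
    simp
  simp [this]

theorem m_neg (p : Polynomial ℂ) : (-p).mahlerMeasure = p.mahlerMeasure := by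
  have : -p = Polynomial.C (-1) * p := by simp
  rw [this, Polynomial.mahlerMeasure_mul, Polynomial.mahlerMeasure_const]
  simp

/-- one variable -/
theorem m1_sub (a b : ℕ) (hab : a ≠ b) :
    m1 ((Polynomial.X : Polynomial ℤ) ^ a - Polynomial.X ^ b) = 1 := by
  have key : ∀ a b : ℕ, a < b →
      m1 ((Polynomial.X : Polynomial ℤ) ^ a - Polynomial.X ^ b) = 1 := by
    intro a b h
    obtain ⟨d, rfl⟩ := Nat.exists_eq_add_of_lt h
    have h1 : ((Polynomial.X : Polynomial ℤ) ^ a - Polynomial.X ^ (a + d + 1)) =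
        - (Polynomial.X ^ a * (Polynomial.X ^ (d + 1) - 1)) := by
      ring
    rw [h1]
    unfold m1 toC
    rw [Polynomial.map_neg, m_neg, Polynomial.map_mul,
      Polynomial.mahlerMeasure_mul, Polynomial.map_pow, Polynomial.map_X]
    have h2 : ((Polynomial.X : Polynomial ℂ) ^ a).mahlerMeasure = 1 := mahler_X_pow a
    rw [h2, one_mul, Polynomial.map_sub, Polynomial.map_pow, Polynomial.map_X, Polynomial.map_one]
    have h3 : ((Polynomial.X : Polynomial ℂ) ^ (d + 1) - 1).Monic :=
      Polynomial.monic_X_pow_sub_C 1 (Nat.succ_ne_zero d)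
    rw [Polynomial.mahlerMeasure_eq_leadingCoeff_mul_prod_roots, h3.leadingCoeff, norm_one, one_mul]
    apply Multiset.prod_eq_one
    intro x hx
    rw [Multiset.mem_map] at hx
    obtain ⟨y, hy, rfl⟩ := hx
    rw [Polynomial.mem_roots h3.ne_zero] at hy
    have h4 : y ^ (d + 1) = 1 := by
      have := hy
      simp only [Polynomial.IsRoot, Polynomial.eval_sub, Polynomial.eval_pow, Polynomial.eval_X,
        Polynomial.eval_one] at this
      exact sub_eq_zero.1 this
    have h5 : ‖y‖ = 1 := by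
      have h6 := congrArg norm h4
      rw [norm_pow, norm_one] at h6
      exact (pow_eq_one_iff_of_nonneg (norm_nonneg _) (Nat.succ_ne_zero d)).1 h6
    rw [h5, max_self]
  rcases lt_or_gt_of_ne hab with h | h
  · exact key a b h
  · have h1 := key b a h
    have h2 : ((Polynomial.X : Polynomial ℤ) ^ a - Polynomial.X ^ b) =
        -((Polynomial.X : Polynomial ℤ) ^ b - Polynomial.X ^ a) := by ring
    rw [h2]
    unfold m1 toC at h1 ⊢
    rw [Polynomial.map_neg, m_neg]
    exact h1

theorem spec_mono (e : Fin k → ℕ) (a : Fin k →₀ ℕ) :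
    spec e (monomial a (1 : ℤ)) = (Polynomial.X : Polynomial ℤ) ^ (∑ i, e i * a i) := by
  unfold spec
  rw [aeval_monomial, Finsupp.prod_fintype _ _ (by simp)]
  simp only [map_one, one_mul, ← pow_mul]
  rw [Finset.prod_pow_eq_pow_sum]

theorem mM_sub (a b : Fin k →₀ ℕ) (hab : a ≠ b) :
    mM (monomial a (1 : ℤ) - monomial b 1) = 1 := by
  have hC : (monomial a (1 : ℤ) - monomial b 1) ≠ 0 := by
    intro h
    exact hab ((monomial_eq_monomial_iff _ _ _ _).1 (sub_eq_zero.1 h) |>.elim (fun h => h.1)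
      fun h => absurd h.1 one_ne_zero)
  have h1 := m1_lim atTop _ (asympIndep_pow k) _ hC
  have hs : (fun i => ((a i : ℤ) - b i)) ≠ 0 := by
    intro h
    apply hab
    ext i
    have := congrFun h i
    simp only [Pi.zero_apply] at this
    omega
  have h2 : ∀ᶠ n : ℕ in atTop, m1 (spec (fun i : Fin k => n ^ (i : ℕ))
      (monomial a (1 : ℤ) - monomial b 1)) = 1 := by
    filter_upwards [asympIndep_pow k _ hs] with n hn
    rw [map_sub, spec_mono, spec_mono]
    apply m1_sub
    intro h
    apply hn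
    have h3 : ((∑ i : Fin k, n ^ (i : ℕ) * a i : ℕ) : ℤ) = (∑ i : Fin k, n ^ (i : ℕ) * b i : ℕ) := by
      exact_mod_cast h
    push_cast at h3 ⊢
    simp only [sub_mul, Finset.sum_sub_distrib]
    rw [sub_eq_zero]
    simpa only [mul_comm] using h3
  exact tendsto_nhds_unique h1 (tendsto_const_nhds.congr' (h2.mono fun n hn => hn.symm))

/-- zero or a monomial -/
def Mo (u : MvPolynomial (Fin k) ℤ) : Prop := u = 0 ∨ ∃ a, u = monomial a 1

theorem Mo.mul {u v : MvPolynomial (Fin k) ℤ} (hu : Mo u) (hv : Mo v) : Mo (u * v) := by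
  rcases hu with rfl | ⟨a, rfl⟩
  · exact Or.inl (zero_mul _)
  · rcases hv with rfl | ⟨b, rfl⟩
    · exact Or.inl (mul_zero _)
    · exact Or.inr ⟨a + b, by rw [monomial_mul, one_mul]⟩

/-- zero or of measure one -/
def Z1 (u : MvPolynomial (Fin k) ℤ) : Prop := u = 0 ∨ mM u = 1

theorem Z1.mul {u v : MvPolynomial (Fin k) ℤ} (hu : Z1 u) (hv : Z1 v) : Z1 (u * v) := by
  by_cases h1 : u = 0
  · exact Or.inl (by rw [h1, zero_mul])
  by_cases h2 : v = 0
  · exact Or.inl (by rw [h2, mul_zero])
  rcases hu with h | h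
  · exact absurd h h1
  rcases hv with h' | h'
  · exact absurd h' h2
  exact Or.inr (by rw [mM_mul _ _ h1 h2, h, h', one_mul])

theorem Z1.neg {u : MvPolynomial (Fin k) ℤ} (hu : Z1 u) : Z1 (-u) := by
  rcases hu with h | h
  · exact Or.inl (by rw [h, neg_zero])
  · exact Or.inr (by rw [mM_neg, h])

theorem Z1.pow_neg {u : MvPolynomial (Fin k) ℤ} (hu : Z1 u) (n : ℕ) : Z1 ((-1) ^ n * u) := by
  rcases neg_one_pow_eq_or (MvPolynomial (Fin k) ℤ) n with h | h
  · rwa [h, one_mul]
  · rw [h, neg_one_mul]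
    exact hu.neg

theorem Mo.z1 {u : MvPolynomial (Fin k) ℤ} (hu : Mo u) : Z1 u := by
  rcases hu with h | ⟨a, rfl⟩
  · exact Or.inl h
  · exact Or.inr (mM_monomial a)

theorem Mo.sub {u v : MvPolynomial (Fin k) ℤ} (hu : Mo u) (hv : Mo v) : Z1 (u - v) := by
  rcases hu with rfl | ⟨a, rfl⟩
  · rw [zero_sub]
    exact hv.z1.neg
  rcases hv with rfl | ⟨b, rfl⟩
  · rw [sub_zero]
    exact Or.inr (mM_monomial a)
  by_cases hab : a = b
  · exact Or.inl (by rw [hab, sub_self])
  · exact Or.inr (mM_sub a b hab)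

/-- a column with at most one entry, which is a monomial -/
def Sg {n : ℕ} (f : Fin n → MvPolynomial (Fin k) ℤ) : Prop :=
  f = 0 ∨ ∃ (p : Fin n) (w : MvPolynomial (Fin k) ℤ), Mo w ∧ f = Pi.single p w

/-- a column of an incidence matrix -/
def Col {n : ℕ} (c : Fin n → MvPolynomial (Fin k) ℤ) : Prop :=
  ∃ f g : Fin n → MvPolynomial (Fin k) ℤ, Sg f ∧ Sg g ∧ c = f - g

theorem expand {n : ℕ} (W : Matrix (Fin (n + 1)) (Fin (n + 1)) (MvPolynomial (Fin k) ℤ))
    (p : Fin (n + 1)) (w : MvPolynomial (Fin k) ℤ) (h : ∀ i, W i 0 = Pi.single (M := fun _ => MvPolynomial (Fin k) ℤ) p w i) :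
    W.det = (-1) ^ (p : ℕ) * w * (W.submatrix p.succAbove Fin.succ).det := by
  rw [det_succ_column_zero, Finset.sum_eq_single p]
  · rw [h p, Pi.single_eq_same]
  · intro i _ hi
    rw [h i, Pi.single_eq_of_ne hi, mul_zero, zero_mul]
  · simp

/-- deleting a row -/
theorem Sg.del {n : ℕ} {f : Fin (n + 1) → MvPolynomial (Fin k) ℤ} (hf : Sg f) (p : Fin (n + 1)) :
    Sg fun i => f (p.succAbove i) := by
  rcases hf with rfl | ⟨q, w, hw, rfl⟩
  · exact Or.inl rfl
  by_cases hq : q = p
  · refine Or.inl ?_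
    funext i
    rw [Pi.single_eq_of_ne]
    · rfl
    · rw [hq]
      exact Fin.succAbove_ne p i
  · obtain ⟨i0, hi0⟩ := Fin.exists_succAbove_eq hq
    refine Or.inr ⟨i0, w, hw, ?_⟩
    funext i
    by_cases hi : i = i0
    · rw [hi, hi0, Pi.single_eq_same, Pi.single_eq_same]
    · rw [Pi.single_eq_of_ne hi, Pi.single_eq_of_ne]
      rw [← hi0]
      exact fun h => hi (Fin.succAbove_right_injective h)

/-- elimination of a row -/
theorem Sg.elim {n : ℕ} {f : Fin (n + 1) → MvPolynomial (Fin k) ℤ} (hf : Sg f) (p q : Fin (n + 1))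
    (hpq : q ≠ p) {u v : MvPolynomial (Fin k) ℤ} (hu : Mo u) (hv : Mo v) :
    Sg fun i => if p.succAbove i = q then u * f q + v * f p else f (p.succAbove i) := by
  obtain ⟨i0, hi0⟩ := Fin.exists_succAbove_eq hpq
  have hiff : ∀ i, p.succAbove i = q ↔ i = i0 := fun i => by
    rw [← hi0]
    exact Fin.succAbove_right_injective.eq_iff
  rcases hf with rfl | ⟨s, w, hw, rfl⟩
  · refine Or.inl ?_
    funext i
    simp
  by_cases hsp : s = p
  · subst hsp
    refine Or.inr ⟨i0, v * w, hv.mul hw, ?_⟩
    funext i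
    by_cases hi : i = i0
    · subst hi
      rw [if_pos hi0, Pi.single_eq_same, Pi.single_eq_same, Pi.single_eq_of_ne hpq, mul_zero,
        zero_add]
    · rw [if_neg fun h => hi ((hiff i).1 h), Pi.single_eq_of_ne (Fin.succAbove_ne s i),
        Pi.single_eq_of_ne hi]
  by_cases hsq : s = q
  · subst hsq
    refine Or.inr ⟨i0, u * w, hu.mul hw, ?_⟩
    funext i
    by_cases hi : i = i0
    · subst hi
      rw [if_pos hi0, Pi.single_eq_same, Pi.single_eq_same, Pi.single_eq_of_ne (Ne.symm hpq),
        mul_zero, add_zero]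
    · rw [if_neg fun h => hi ((hiff i).1 h), Pi.single_eq_of_ne hi, Pi.single_eq_of_ne]
      exact fun h => hi ((hiff i).1 h)
  · obtain ⟨i1, hi1⟩ := Fin.exists_succAbove_eq hsp
    refine Or.inr ⟨i1, w, hw, ?_⟩
    funext i
    by_cases hi : i = i0
    · have h1 : i ≠ i1 := by
        intro h
        apply hsq
        rw [← hi1, ← h, hi, hi0]
      rw [if_pos ((hiff i).2 hi), Pi.single_eq_of_ne (Ne.symm hsq), Pi.single_eq_of_ne (Ne.symm hsp),
        Pi.single_eq_of_ne h1, mul_zero, mul_zero, add_zero]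
    · rw [if_neg fun h => hi ((hiff i).1 h)]
      by_cases h1 : i = i1
      · rw [h1, hi1, Pi.single_eq_same, Pi.single_eq_same]
      · rw [Pi.single_eq_of_ne h1, Pi.single_eq_of_ne]
        rw [← hi1]
        exact fun h => h1 (Fin.succAbove_right_injective h)

/-- **minors of incidence matrices** -/
theorem net_det : ∀ (n : ℕ) (W : Matrix (Fin n) (Fin n) (MvPolynomial (Fin k) ℤ)),
    (∀ l, Col fun i => W i l) → Z1 W.det := by
  intro n
  induction n with
  | zero =>
    intro W _
    rw [det_isEmpty]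
    exact Or.inr mM_one
  | succ n ih =>
    intro W hW
    have hdel : ∀ p : Fin (n + 1), Z1 (W.submatrix p.succAbove Fin.succ).det := by
      intro p
      refine ih _ fun l => ?_
      obtain ⟨f, g, hf, hg, h⟩ := hW l.succ
      refine ⟨_, _, hf.del p, hg.del p, ?_⟩
      funext i
      exact congrFun h (p.succAbove i)
    have hone : ∀ (p : Fin (n + 1)) (w : MvPolynomial (Fin k) ℤ), Z1 w →
        (∀ i, W i 0 = Pi.single (M := fun _ => MvPolynomial (Fin k) ℤ) p w i) → Z1 W.det := by
      intro p w hw h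
      rw [expand W p w h, mul_assoc]
      exact (hw.mul (hdel p)).pow_neg _
    obtain ⟨f, g, hf, hg, h0⟩ := hW 0
    have h0' : ∀ i, W i 0 = f i - g i := fun i => congrFun h0 i
    rcases hf with rfl | ⟨p, u, hu, rfl⟩
    · rcases hg with rfl | ⟨q, v, hv, rfl⟩
      · refine Or.inl (det_eq_zero_of_column_eq_zero 0 fun i => ?_)
        rw [h0' i]
        simp
      · refine hone q (-v) hv.z1.neg fun i => ?_
        rw [h0' i, Pi.single_neg]
        simp
    rcases hg with rfl | ⟨q, v, hv, rfl⟩
    · refine hone p u hu.z1 fun i => ?_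
      rw [h0' i]
      simp
    by_cases hqp : q = p
    · subst hqp
      refine hone q (u - v) (hu.sub hv) fun i => ?_
      rw [h0' i, Pi.single_sub]
      rfl
    by_cases hu0 : u = 0
    · subst hu0
      refine hone q (-v) hv.z1.neg fun i => ?_
      rw [h0' i, Pi.single_neg]
      simp
    set W' := W.updateRow q (u • W q + v • W p) with hW'
    have hd : W'.det = u * W.det := by
      rw [hW', det_updateRow_add, det_updateRow_smul, det_updateRow_smul, updateRow_eq_self]
      have h1 : (W.updateRow q (W p)).det = 0 :=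
        det_zero_of_row_eq (i := q) (j := p) hqp (by
          rw [updateRow_self, updateRow_ne (Ne.symm hqp)])
      rw [h1, mul_zero, add_zero]
    have hcol : ∀ i, W' i 0 = Pi.single (M := fun _ => MvPolynomial (Fin k) ℤ) p u i := by
      intro i
      by_cases hi : i = q
      · subst hi
        rw [hW', updateRow_self, Pi.add_apply, Pi.smul_apply, Pi.smul_apply, h0', h0',
          Pi.single_eq_same, Pi.single_eq_same, Pi.single_eq_of_ne hqp,
          Pi.single_eq_of_ne (Ne.symm hqp), smul_eq_mul, smul_eq_mul]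
        ring
      · rw [hW', updateRow_ne hi, h0', Pi.single_eq_of_ne hi, sub_zero]
    have h1 := expand W' p u hcol
    rw [hd, mul_comm ((-1) ^ (p : ℕ)) u, mul_assoc] at h1
    have h2 := mul_left_cancel₀ hu0 h1
    rw [h2]
    refine Z1.pow_neg (ih _ fun l => ?_) _
    obtain ⟨f, g, hf, hg, h⟩ := hW l.succ
    refine ⟨_, _, hf.elim p q hqp hu hv, hg.elim p q hqp hu hv, ?_⟩
    funext i
    have hc : ∀ i, W i l.succ = f i - g i := fun i => congrFun h i
    simp only [submatrix_apply, Pi.sub_apply]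
    by_cases hi : p.succAbove i = q
    · rw [if_pos hi, if_pos hi, hi, hW', updateRow_self, Pi.add_apply, Pi.smul_apply,
        Pi.smul_apply, hc, hc, smul_eq_mul, smul_eq_mul]
      ring
    · rw [if_neg hi, if_neg hi, hW', updateRow_ne hi, hc]

/-- **periodic graphs** -/
theorem Dom_net (hk : 1 ≤ k) {F : MvPolynomial (Fin k) ℤ} (hF : F ≠ 0) {n N : ℕ}
    (W : Matrix (Fin n) (Fin N) (MvPolynomial (Fin k) ℤ)) (hW : ∀ l, Col fun i => W i l)
    (h : ∀ t : Fin k → ℝ, ‖(tvM W t * (tvM W t)ᴴ).det‖ = ‖tv F t‖) : mM F ∈ Dom 1 := by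
  classical
  have hsub : ∀ I : Fin n → Fin N, Z1 (W.submatrix id I).det := fun I =>
    net_det n _ fun l => hW (I l)
  refine Dom_gram hk hF W ?_ h
  intro q hq hall
  -- some minor is nonzero
  obtain ⟨I, hI, hne⟩ : ∃ I : Fin n → Fin N, StrictMono I ∧ (W.submatrix id I).det ≠ 0 := by
    by_contra hcon
    push Not at hcon
    have hz : ∀ I : Fin n → Fin N, (W.submatrix id I).det = 0 := by
      intro I
      by_cases hinj : Function.Injective I
      · have h1 : StrictMono (I ∘ Tuple.sort I) :=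
          (Tuple.monotone_sort I).strictMono_of_injective (hinj.comp (Tuple.sort I).injective)
        have h2 := hcon _ h1
        have h3 : W.submatrix id (I ∘ Tuple.sort I) = (W.submatrix id I).submatrix id (Tuple.sort I) :=
          rfl
        rw [h3, det_permute'] at h2
        rcases mul_eq_zero.1 h2 with h4 | h4
        · exfalso
          have h5 : ((Equiv.Perm.sign (Tuple.sort I) : ℤ) : MvPolynomial (Fin k) ℤ) ≠ 0 := by
            rcases Int.units_eq_one_or (Equiv.Perm.sign (Tuple.sort I)) with h | h <;> simp [h]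
          exact h5 h4
        · exact h4
      · rw [Function.Injective] at hinj
        push Not at hinj
        obtain ⟨i, j, hij, hne⟩ := hinj
        refine det_zero_of_column_eq hne fun l => ?_
        simp only [submatrix_apply, hij]
    have h6 : ∀ t : Fin k → ℝ, tv F t = 0 := by
      intro t
      have h7 := gram_eq (tvM W t)
      have h8 : ∀ I : Fin n → Fin N, ‖((tvM W t).submatrix id I).det‖ ^ 2 = 0 := by
        intro I
        have h9 := tv_det (W.submatrix id I) t
        rw [hz I] at h9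
        have h10 : tvM (W.submatrix id I) t = (tvM W t).submatrix id I := rfl
        rw [h10] at h9
        rw [← h9, J.tv_eq, map_zero, norm_zero]
        norm_num
      rw [Finset.sum_congr rfl fun I _ => h8 I, Finset.sum_const_zero, h t] at h7
      have h9 : (n.factorial : ℝ) ≠ 0 := by exact_mod_cast n.factorial_ne_zero
      exact norm_eq_zero.1 ((mul_eq_zero.1 h7).resolve_left h9)
    have h7 : ∀ᵐ t ∂((volume : Measure (Fin k → ℝ)).restrict (Set.Icc (0 : Fin k → ℝ) 1)),
        False := by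
      filter_upwards [F_zero_null hF] with t ht
      exact ht (h6 t)
    rw [ae_iff] at h7
    simp at h7
  obtain ⟨r, hr⟩ := hall I hI
  have h1 : mM (W.submatrix id I).det = 1 := (hsub I).resolve_left hne
  have hr0 : r ≠ 0 := by
    rintro rfl
    rw [mul_zero] at hr
    exact hne hr
  rw [hr, mM_mul _ _ hq.ne_zero hr0] at h1
  have h2 := one_le_mM q hq.ne_zero
  have h3 := one_le_mM r hr0
  nlinarith

end

end Pool.Agent.R719.TC
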