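import Pool.Agent.TH845.KN.B2

/-!
# Companions that are tuples of polynomials

If `F` and `G_1, …, G_r` have no common irreducible factor of Mahler measure greater than one, and
`∫ log max(|F|, ∑ |G_i|) ≤ K`, then `M(F)` lies in `LL K`.
-/

set_option autoImplicit false

open MeasureTheory Filter MvPolynomial

namespace Pool.Agent.R719.TC

open Pool.Agent.H261R2.CM Pool.Agent.TH845.KN

noncomputable section

variable {k r : ℕ}

/-- the height of a tuple -/
def hgt (F : MvPolynomial (Fin k) ℤ) (G : Fin r → MvPolynomial (Fin k) ℤ) : ℝ :=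
  ∫ t in Set.Icc (0 : Fin k → ℝ) 1, Real.log (max ‖tv F t‖ (∑ i, ‖tv (G i) t‖))

/-- no common irreducible factor of measure greater than one -/
def Cop (F : MvPolynomial (Fin k) ℤ) (G : Fin r → MvPolynomial (Fin k) ℤ) : Prop :=
  ∀ h : MvPolynomial (Fin k) ℤ, Irreducible h → h ∣ F → (∀ i, h ∣ G i) → mM h = 1

/-- removing the common factors -/
theorem remove (F : MvPolynomial (Fin k) ℤ) (hF : F ≠ 0) (G : Fin r → MvPolynomial (Fin k) ℤ)
    (hc : Cop F G) : ∃ (c F' : MvPolynomial (Fin k) ℤ) (G' : Fin r → MvPolynomial (Fin k) ℤ),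
      c ≠ 0 ∧ F' ≠ 0 ∧ mM c = 1 ∧ F = c * F' ∧ (∀ i, G i = c * G' i) ∧
      ∀ h : MvPolynomial (Fin k) ℤ, Irreducible h → h ∣ F' → ¬ ∀ i, h ∣ G' i := by
  classical
  revert G
  induction F using (IsWellFounded.wf (r := (DvdNotUnit : MvPolynomial (Fin k) ℤ → _ → Prop))).induction
    with
  | _ F ih =>
    intro G hc
    by_cases hex : ∃ h : MvPolynomial (Fin k) ℤ, Irreducible h ∧ h ∣ F ∧ ∀ i, h ∣ G i
    · obtain ⟨h, hirr, ⟨F1, rfl⟩, hG⟩ := hex
      choose G1 hG1 using hG
      have hF1 : F1 ≠ 0 := right_ne_zero_of_mul hF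
      have hd : DvdNotUnit F1 (h * F1) := ⟨hF1, h, hirr.not_isUnit, mul_comm _ _⟩
      obtain ⟨c, F', G', h1, h2, h3, h4, h5, h6⟩ := ih F1 hd hF1 G1 (by
        intro q hq hqF hqG
        exact hc q hq (hqF.mul_left _) fun i => by rw [hG1 i]; exact (hqG i).mul_left _)
      refine ⟨h * c, F', G', mul_ne_zero hirr.ne_zero h1, h2, ?_, ?_, ?_, h6⟩
      · rw [mM_mul _ _ hirr.ne_zero h1, h3, mul_one]
        exact hc h hirr (dvd_mul_right _ _) fun i => ⟨_, hG1 i⟩
      · rw [h4, mul_assoc]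
      · intro i
        rw [hG1 i, h5 i, mul_assoc]
    · push Not at hex
      refine ⟨1, F, G, one_ne_zero, hF, ?_, (one_mul F).symm, fun i => (one_mul _).symm, ?_⟩
      · unfold mM
        simp [tv]
      · intro h hirr hF' hall
        obtain ⟨i, hi⟩ := hex h hirr hF'
        exact hi (hall i)

/-- the companion in new variables -/
def comp (G : Fin r → MvPolynomial (Fin k) ℤ) : MvPolynomial (Fin (k + r)) ℤ :=
  ∑ i, X (Fin.natAdd k i) * rename (Fin.castAdd r) (G i)

/-- the substitution selecting `G i` -/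
def sel (i : Fin r) : MvPolynomial (Fin (k + r)) ℤ →ₐ[ℤ] MvPolynomial (Fin k) ℤ :=
  aeval (Fin.addCases (fun j => (X j : MvPolynomial (Fin k) ℤ)) fun l => if l = i then 1 else 0)

theorem sel_rename (i : Fin r) (P : MvPolynomial (Fin k) ℤ) :
    sel i (rename (Fin.castAdd r) P) = P := by
  unfold sel
  rw [aeval_rename]
  have : (Fin.addCases (fun j => (X j : MvPolynomial (Fin k) ℤ)) fun l => if l = i then 1 else 0) ∘
      (Fin.castAdd r) = (X : Fin k → MvPolynomial (Fin k) ℤ) := by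
    funext j
    simp
  rw [this, aeval_X_left, AlgHom.id_apply]

theorem sel_comp (i : Fin r) (G : Fin r → MvPolynomial (Fin k) ℤ) : sel i (comp G) = G i := by
  classical
  unfold comp
  rw [map_sum]
  simp only [map_mul, sel_rename]
  rw [Finset.sum_eq_single i]
  · unfold sel
    simp
  · intro j _ hj
    unfold sel
    simp [hj]
  · simp

theorem relPrime_comp (F : MvPolynomial (Fin k) ℤ) (hF : F ≠ 0)
    (G : Fin r → MvPolynomial (Fin k) ℤ)
    (h : ∀ h : MvPolynomial (Fin k) ℤ, Irreducible h → h ∣ F → ¬ ∀ i, h ∣ G i) :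
    IsRelPrime (rename (Fin.castAdd r) F) (comp G) := by
  classical
  intro π h1 h2
  have hφ : Function.Injective (Fin.castAdd r : Fin k → Fin (k + r)) := Fin.castAdd_injective k r
  have h3 : ∀ i, (∀ j : Fin k, Fin.castAdd r j ≠ i) → degreeOf i π = 0 := fun i hi =>
    J.degreeOf_zero_of_dvd (ren_ne_zero _ hφ hF) h1 i (degreeOf_ren _ F i hi)
  obtain ⟨ρ, rfl⟩ : ∃ ρ : MvPolynomial (Fin k) ℤ, rename (Fin.castAdd r) ρ = π := by
    apply exists_rename_eq_of_vars_subset_range π _ hφ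
    intro i hi
    rw [Finset.mem_coe, mem_vars_iff_mem_support] at hi
    obtain ⟨d, hd, hdi⟩ := hi
    rw [Finsupp.mem_support_iff] at hdi
    by_contra hc
    have h4 := h3 i (fun j hj => hc ⟨j, hj⟩)
    have := monomial_le_degreeOf i hd
    omega
  have h5 := map_dvd (killCompl hφ) h1
  rw [killCompl_rename_app, killCompl_rename_app] at h5
  have h6 : ∀ i, ρ ∣ G i := by
    intro i
    have h7 := map_dvd (sel i) h2
    rwa [sel_rename, sel_comp] at h7
  by_contra hu
  have hu' : ¬ IsUnit ρ := fun h' => hu (h'.map (rename (Fin.castAdd r)))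
  obtain ⟨q, hq, hqd⟩ := WfDvdMonoid.exists_irreducible_factor hu' (ne_zero_of_dvd_ne_zero hF h5)
  exact h q hq (hqd.trans h5) fun i => hqd.trans (h6 i)

theorem norm_comp (G : Fin r → MvPolynomial (Fin k) ℤ) (t : Fin (k + r) → ℝ) :
    ‖tv (comp G) t‖ ≤ ∑ i, ‖tv (G i) fun j => t (Fin.castAdd r j)‖ := by
  unfold comp
  rw [J.tv_eq, map_sum]
  refine (norm_sum_le _ _).trans (Finset.sum_le_sum fun i _ => ?_)
  rw [map_mul, norm_mul, ← J.tv_eq, ← J.tv_eq, J.tv_X, J.norm_zz, one_mul, tv_ren]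

theorem cont_sum (G : Fin r → MvPolynomial (Fin k) ℤ) :
    Continuous fun t : Fin k → ℝ => ∑ i, ‖tv (G i) t‖ :=
  continuous_finsetSum _ fun i _ => (F_continuous_tv (G i)).norm

theorem int_hgt {F : MvPolynomial (Fin k) ℤ} (hF : F ≠ 0) (G : Fin r → MvPolynomial (Fin k) ℤ) :
    Integrable (fun t : Fin k → ℝ => Real.log (max ‖tv F t‖ (∑ i, ‖tv (G i) t‖)))
      (volume.restrict (Set.Icc (0 : Fin k → ℝ) 1)) := by
  obtain ⟨K0, hK0, hK⟩ := F_bound F
  choose KG hKG0 hKG using fun i => F_bound (G i)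
  set L := Real.log (max K0 (∑ i, KG i) + 1) with hL
  have hS0 : 0 ≤ max K0 (∑ i, KG i) := le_max_of_le_left hK0
  have hL0 : 0 ≤ L := Real.log_nonneg (by linarith)
  refine Integrable.mono' (g := fun t => L + |Real.log ‖tv F t‖|)
    ((integrable_const _).add (F_integrable hF).abs) ?_ ?_
  · exact (Real.measurable_log.comp
      ((F_continuous_tv F).norm.max (cont_sum G)).measurable).aestronglyMeasurable
  · filter_upwards [F_zero_null hF] with t ht
    have h3 : 0 < ‖tv F t‖ := norm_pos_iff.mpr ht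
    have h4 : Real.log ‖tv F t‖ ≤ Real.log (max ‖tv F t‖ (∑ i, ‖tv (G i) t‖)) :=
      Real.log_le_log h3 (le_max_left _ _)
    have h5 : Real.log (max ‖tv F t‖ (∑ i, ‖tv (G i) t‖)) ≤ L := by
      apply Real.log_le_log (lt_max_of_lt_left h3)
      have : max ‖tv F t‖ (∑ i, ‖tv (G i) t‖) ≤ max K0 (∑ i, KG i) :=
        max_le_max (hK t) (Finset.sum_le_sum fun i _ => hKG i t)
      linarith
    rw [Real.norm_eq_abs, abs_le]
    have h6 := neg_abs_le (Real.log ‖tv F t‖)
    have h7 := abs_nonneg (Real.log ‖tv F t‖)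
    constructor <;> linarith

theorem mx_comp {F : MvPolynomial (Fin k) ℤ} (hF : F ≠ 0) (G : Fin r → MvPolynomial (Fin k) ℤ) :
    mx (rename (Fin.castAdd r) F) (comp G) ≤ hgt F G := by
  have hφ : Function.Injective (Fin.castAdd r : Fin k → Fin (k + r)) := Fin.castAdd_injective k r
  have hm : Measurable fun t : Fin k → ℝ => Real.log (max ‖tv F t‖ (∑ i, ‖tv (G i) t‖)) :=
    Real.measurable_log.comp ((F_continuous_tv F).norm.max (cont_sum G)).measurable
  have hA : rename (Fin.castAdd r) F ≠ 0 := ren_ne_zero _ hφ hF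
  unfold hgt
  rw [← cube_comp (Fin.castAdd r) hφ _ hm]
  unfold mx
  have hB : Integrable (fun t : Fin (k + r) → ℝ => Real.log (max ‖tv F fun j => t (Fin.castAdd r j)‖
      (∑ i, ‖tv (G i) fun j => t (Fin.castAdd r j)‖)))
      (volume.restrict (Set.Icc (0 : Fin (k + r) → ℝ) 1)) := by
    have h := int_hgt hA (fun i => rename (Fin.castAdd r) (G i))
    simpa only [tv_ren] using h
  refine integral_mono_ae (integrable_logmax' hA _) hB ?_
  filter_upwards [F_zero_null hA] with t ht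
  have h3 : 0 < ‖tv (rename (Fin.castAdd r) F) t‖ := norm_pos_iff.mpr ht
  refine Real.log_le_log (lt_max_of_lt_left h3) ?_
  rw [tv_ren]
  exact max_le_max le_rfl (norm_comp G t)

/-- **tuple companions** -/
theorem mem_LL (hk : 1 ≤ k) (F : MvPolynomial (Fin k) ℤ) (hF : F ≠ 0)
    (G : Fin r → MvPolynomial (Fin k) ℤ) (hc : Cop F G) : mM F ∈ LL (hgt F G) := by
  classical
  obtain ⟨c, F', G', hc0, hF', hc1, hFe, hGe, hno⟩ := remove F hF G hc
  have hlc : ∫ t in Set.Icc (0 : Fin k → ℝ) 1, Real.log ‖tv c t‖ = 0 := by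
    rw [← log_mM, hc1, Real.log_one]
  have hM : mM F = mM F' := by rw [hFe, mM_mul _ _ hc0 hF', hc1, one_mul]
  have hH : hgt F G = hgt F' G' := by
    have h0 : hgt F' G' = ∫ t in Set.Icc (0 : Fin k → ℝ) 1, (Real.log ‖tv c t‖ +
        Real.log (max ‖tv F' t‖ (∑ i, ‖tv (G' i) t‖))) := by
      rw [integral_add (F_integrable hc0) (int_hgt hF' G'), hlc, zero_add]
      rfl
    rw [h0]
    unfold hgt
    refine integral_congr_ae ?_
    filter_upwards [F_zero_null hc0, F_zero_null hF'] with t h1 h2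
    have h3 : 0 < ‖tv c t‖ := norm_pos_iff.mpr h1
    have h4 : 0 < ‖tv F' t‖ := norm_pos_iff.mpr h2
    rw [← Real.log_mul h3.ne' (lt_max_of_lt_left h4).ne', mul_max_of_nonneg _ _ h3.le]
    congr 2
    · rw [hFe, J.tv_mul, norm_mul]
    · rw [Finset.mul_sum]
      refine Finset.sum_congr rfl fun i _ => ?_
      rw [hGe i, J.tv_mul, norm_mul]
  rw [hM, hH]
  by_cases hz : comp G' = 0
  · have hG0 : ∀ i, G' i = 0 := fun i => by rw [← sel_comp i G', hz, map_zero]
    have hu : IsUnit F' := by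
      by_contra hu
      obtain ⟨q, hq, hqd⟩ := WfDvdMonoid.exists_irreducible_factor hu hF'
      exact hno q hq hqd fun i => by rw [hG0 i]; exact dvd_zero _
    refine ⟨k, hk, F', 1, hF', one_ne_zero, isRelPrime_one_right, ?_, rfl⟩
    obtain ⟨u, hu', hue⟩ := (MvPolynomial.isUnit_iff_eq_C_of_isReduced (P := F')).1 hu
    have hn : ∀ t : Fin k → ℝ, ‖tv F' t‖ = 1 := by
      intro t
      rw [hue, J.tv_C]
      rcases Int.isUnit_iff.1 hu' with h | h <;> simp [h]
    unfold mx hgt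
    refine le_of_eq (integral_congr_ae (Eventually.of_forall fun t => ?_))
    simp only [hn t, hG0]
    simp [tv]
  · exact ⟨k + r, by omega, rename (Fin.castAdd r) F', comp G',
      ren_ne_zero _ (Fin.castAdd_injective k r) hF', hz, relPrime_comp F' hF' G' hno,
      mx_comp hF' G', (mM_ren _ (Fin.castAdd_injective k r) F').symm⟩

end

end Pool.Agent.R719.TC
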